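import Mathlib

set_option autoImplicit false

namespace Pool.Agent.Lib.MP_71509e_al.OB

open Cardinal Set

universe u

variable {P : Type u}

/-- `A` is closed under the finitary set-valued operation `G`. -/
def Closed (G : Finset P → Set P) (A : Set P) : Prop :=
  ∀ s : Finset P, (s : Set P) ⊆ A → G s ⊆ A

/-- Every finitary countable-valued operation has a closed member in the family. -/
def KStat (𝒮 : Set (Set P)) : Prop :=
  ∀ G : Finset P → Set P, (∀ s, (G s).Countable) → ∃ A ∈ 𝒮, Closed G A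

/-- Every countable set lies inside a member of the family. -/
def Cof (𝒮 : Set (Set P)) : Prop := ∀ C : Set P, C.Countable → ∃ A ∈ 𝒮, C ⊆ A

/-- The pressing-down property of a neighbourhood map. -/
def Press (N : P → Set P) : Prop :=
  ∀ 𝒮 : Set (Set P), (∀ A ∈ 𝒮, A.Countable) → KStat 𝒮 → ∀ p : Set P → P,
    ∃ 𝒯 ⊆ 𝒮, Cof 𝒯 ∧ ∀ A ∈ 𝒯, ∀ B ∈ 𝒯, N (p A) ∩ A ⊆ N (p B)

/-- A point-finite cover of the relation by complete pieces. -/
def Cover (N : P → Set P) : Prop :=
  ∃ 𝓕 : Set (Set P × Set P), (∀ C ∈ 𝓕, ∀ x ∈ C.1, ∀ y ∈ C.2, y ∈ N x) ∧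
    (∀ x y : P, y ∈ N x → ∃ C ∈ 𝓕, x ∈ C.1 ∧ y ∈ C.2) ∧
    ∀ x : P, {C ∈ 𝓕 | x ∈ C.1 ∨ x ∈ C.2}.Finite

def step (G : Finset P → Set P) (B : Set P) : Set P :=
  B ∪ ⋃ s : {s : Finset P // (s : Set P) ⊆ B}, G s.1

def stage (G : Finset P → Set P) (B : Set P) : ℕ → Set P
  | 0 => B
  | n + 1 => step G (stage G B n)

/-- The closure of `B` under `G`. -/
def cl (G : Finset P → Set P) (B : Set P) : Set P := ⋃ n, stage G B n

variable {G : Finset P → Set P}

theorem stage_mono (B : Set P) : Monotone (stage G B) :=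
  monotone_nat_of_le_succ fun _ => subset_union_left

theorem subset_cl (B : Set P) : B ⊆ cl G B := subset_iUnion (stage G B) 0

theorem finset_sub_chain {c : ℕ → Set P} (hc : Monotone c) (s : Finset P)
    (hs : (s : Set P) ⊆ ⋃ n, c n) : ∃ n, (s : Set P) ⊆ c n := by
  classical
  induction s using Finset.induction_on with
  | empty => exact ⟨0, by simp⟩
  | insert a s _ ih =>
    rw [Finset.coe_insert, insert_subset_iff] at hs
    obtain ⟨n, hn⟩ := ih hs.2
    obtain ⟨m, hm⟩ := mem_iUnion.1 hs.1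
    refine ⟨max n m, ?_⟩
    rw [Finset.coe_insert, insert_subset_iff]
    exact ⟨hc (le_max_right _ _) hm, hn.trans (hc (le_max_left _ _))⟩

theorem closed_iUnion {c : ℕ → Set P} (hc : Monotone c) (h : ∀ n, Closed G (c n)) :
    Closed G (⋃ n, c n) := by
  intro s hs
  obtain ⟨n, hn⟩ := finset_sub_chain hc s hs
  exact (h n s hn).trans (subset_iUnion c n)

theorem closed_cl (B : Set P) : Closed G (cl G B) := by
  intro s hs
  obtain ⟨n, hn⟩ := finset_sub_chain (stage_mono B) s hs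
  refine Subset.trans ?_ (subset_iUnion (stage G B) (n + 1))
  exact subset_union_of_subset_right
    (subset_iUnion (fun t : {s : Finset P // (s : Set P) ⊆ stage G B n} => G t.1) ⟨s, hn⟩) _

theorem cl_min {A B : Set P} (hA : Closed G A) (h : B ⊆ A) : cl G B ⊆ A := by
  refine iUnion_subset fun n => ?_
  induction n with
  | zero => exact h
  | succ n ih => exact union_subset ih (iUnion_subset fun t => hA t.1 (t.2.trans ih))

theorem cl_mono {A B : Set P} (h : B ⊆ A) : cl G B ⊆ cl G A :=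
  cl_min (closed_cl A) (h.trans (subset_cl A))

theorem closed_univ : Closed G univ := fun _ _ => subset_univ _

theorem Closed.of_le {G G' : Finset P → Set P} {A : Set P} (h : Closed G' A)
    (hG : ∀ s, G s ⊆ G' s) : Closed G A := fun s hs => (hG s).trans (h s hs)

theorem exists_finset_cl {B : Set P} {a : P} (ha : a ∈ cl G B) :
    ∃ s : Finset P, (s : Set P) ⊆ B ∧ a ∈ cl G (s : Set P) := by
  classical
  have hc : Closed G {a | ∃ s : Finset P, (s : Set P) ⊆ B ∧ a ∈ cl G (s : Set P)} := by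
    intro t ht
    have : ∃ s : Finset P, (s : Set P) ⊆ B ∧ (t : Set P) ⊆ cl G (s : Set P) := by
      induction t using Finset.induction_on with
      | empty => exact ⟨∅, by simp, by simp⟩
      | insert b t _ ih =>
        rw [Finset.coe_insert, insert_subset_iff] at ht
        obtain ⟨s, hs, hts⟩ := ih ht.2
        obtain ⟨s', hs', hb⟩ := ht.1
        refine ⟨s ∪ s', by rw [Finset.coe_union]; exact union_subset hs hs', ?_⟩
        rw [Finset.coe_insert, insert_subset_iff, Finset.coe_union]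
        exact ⟨cl_mono subset_union_right hb, hts.trans (cl_mono subset_union_left)⟩
    obtain ⟨s, hs, hts⟩ := this
    exact fun x hx => ⟨s, hs, closed_cl _ t hts hx⟩
  exact cl_min hc (fun b hb => ⟨{b}, by simpa using hb, subset_cl _ (by simp)⟩) ha

theorem mk_finset_sub_le (B : Set P) :
    #{s : Finset P // (s : Set P) ⊆ B} ≤ max #B ℵ₀ := by
  classical
  have h1 : #{s : Finset P // (s : Set P) ⊆ B} ≤ #(Finset B) := by
    refine mk_le_of_injective (f := fun s => s.1.subtype (· ∈ B)) ?_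
    intro s t hst
    apply Subtype.ext
    ext a
    have h := congrArg (fun r : Finset B => ∃ h : a ∈ B, (⟨a, h⟩ : B) ∈ r) hst
    simp only [Finset.mem_subtype, eq_iff_iff] at h
    constructor
    · intro ha
      exact (h.1 ⟨s.2 ha, ha⟩).2
    · intro ha
      exact (h.2 ⟨t.2 ha, ha⟩).2
  refine h1.trans ?_
  rcases finite_or_infinite B with hB | hB
  · exact (mk_le_aleph0).trans (le_max_right _ _)
  · rw [mk_finset_of_infinite]; exact le_max_left _ _

theorem mk_step_le {B : Set P} {μ : Cardinal.{u}} (hG : ∀ s, #(G s) ≤ μ) (hμ : ℵ₀ ≤ μ)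
    (hB : #B ≤ μ) : #(step G B) ≤ μ := by
  refine (mk_union_le _ _).trans (add_le_of_le hμ hB ?_)
  refine (mk_iUnion_le _).trans (mul_le_of_le hμ ?_ ?_)
  · exact (mk_finset_sub_le B).trans (max_le hB hμ)
  · exact ciSup_le' fun s => hG s.1

theorem cl_eq_ulift (B : Set P) : cl G B = ⋃ n : ULift.{u} ℕ, stage G B n.down := by
  ext a
  simp only [cl, mem_iUnion]
  exact ⟨fun ⟨n, hn⟩ => ⟨⟨n⟩, hn⟩, fun ⟨n, hn⟩ => ⟨n.down, hn⟩⟩

theorem mk_cl_le' {B : Set P} {μ : Cardinal.{u}} (hG : ∀ s, #(G s) ≤ μ) (hμ : ℵ₀ ≤ μ)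
    (hB : #B ≤ μ) : #(cl G B) ≤ μ := by
  have h : ∀ n, #(stage G B n) ≤ μ := by
    intro n
    induction n with
    | zero => exact hB
    | succ n ih => exact mk_step_le hG hμ ih
  rw [cl_eq_ulift]
  refine (mk_iUnion_le _).trans (mul_le_of_le hμ ?_ (ciSup_le' fun n => h n.down))
  exact mk_le_aleph0.trans hμ

theorem mk_cl_le (hG : ∀ s, (G s).Countable) {B : Set P} {μ : Cardinal.{u}} (hμ : ℵ₀ ≤ μ)
    (hB : #B ≤ μ) : #(cl G B) ≤ μ :=
  mk_cl_le' (fun s => (le_aleph0_iff_set_countable.2 (hG s)).trans hμ) hμ hB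

theorem mk_cl_lt {B : Set P} {κ : Cardinal.{u}} (hκ : κ.IsRegular) (hκ' : ℵ₀ < κ)
    (hG : ∀ s, #(G s) < κ) (hB : #B < κ) : #(cl G B) < κ := by
  have h : ∀ n, #(stage G B n) < κ := by
    intro n
    induction n with
    | zero => exact hB
    | succ n ih =>
      refine (mk_union_le _ _).trans_lt (add_lt_of_lt hκ.1 ih ?_)
      exact (card_iUnion_lt_iff_forall_of_isRegular hκ
        ((mk_finset_sub_le _).trans_lt (max_lt ih hκ'))).2 fun s => hG s.1
  rw [cl_eq_ulift]
  exact (card_iUnion_lt_iff_forall_of_isRegular hκ (mk_le_aleph0.trans_lt hκ')).2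
    fun n => h n.down

theorem countable_cl (hG : ∀ s, (G s).Countable) {B : Set P} (hB : B.Countable) :
    (cl G B).Countable :=
  le_aleph0_iff_set_countable.1 (mk_cl_le hG le_rfl (le_aleph0_iff_set_countable.2 hB))

theorem kstat_countable : KStat {A : Set P | A.Countable} :=
  fun _ hG => ⟨cl _ ∅, countable_cl hG countable_empty, closed_cl _⟩

theorem KStat.cof {𝒮 : Set (Set P)} (h : KStat 𝒮) : Cof 𝒮 := by
  intro C hC
  obtain ⟨A, hA, hc⟩ := h (fun _ => C) (fun _ => hC)
  exact ⟨A, hA, hc ∅ (by simp)⟩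

end Pool.Agent.Lib.MP_71509e_al.OB
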