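import Mathlib

set_option autoImplicit false

namespace Pool.Agent.Lib.MP_71509e_al.OB

universe u

/-- The points strictly comparable with `p`. -/
def nbr {P : Type u} [PartialOrder P] (p : P) : Set P := {q | q < p ∨ p < q}

/-- An uncountable half-crown: points `a i`, `b i` indexed by the countable ordinals such that
`a i` is not strictly comparable with `b i` but `a j` is strictly comparable with `b i` for
`i < j`. -/
def HasHalfCrown (P : Type u) [PartialOrder P] : Prop :=
  ∃ a b : (Ordinal.omega.{0} 1).ToType → P,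
    (∀ i, b i ∉ nbr (a i)) ∧ ∀ i j, i < j → b i ∈ nbr (a j)

/-- A branchless list: a regular uncountable cardinal `κ`, points `e ξ`, `p ξ` indexed by the
ordinals below `κ` and a stationary set `S` of indices such that no set `W` of indices has
`{ξ < δ | e ξ ∈ nbr (p δ)} = W ∩ δ` for cofinally many `δ ∈ S`. -/
def HasBranchlessList (P : Type u) [PartialOrder P] : Prop :=
  ∃ κ : Cardinal.{u}, κ.IsRegular ∧ Cardinal.aleph0 < κ ∧
    ∃ (e p : κ.ord.ToType → P) (S : Set κ.ord.ToType), IsStationary S ∧
      ∀ W : Set κ.ord.ToType, ¬ IsCofinal {δ ∈ S | ∀ ξ < δ, e ξ ∈ nbr (p δ) ↔ ξ ∈ W}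

end Pool.Agent.Lib.MP_71509e_al.OB
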