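import Mathlib
import Pool.Agent.Lib.MP_71509e_al.OB.Basic

set_option autoImplicit false

namespace Pool.Agent.Lib.MP_71509e_al.OB

open Cardinal Set

universe u

variable {P : Type u}

theorem mk_iUnion_nat_le {α : Type u} {c : ℕ → Set α} {μ : Cardinal.{u}} (hμ : ℵ₀ ≤ μ)
    (h : ∀ n, #(c n) ≤ μ) : #(⋃ n, c n : Set α) ≤ μ := by
  have h2 : (⋃ n, c n) = ⋃ n : ULift.{u} ℕ, c n.down := by
    ext a
    simp only [mem_iUnion]
    exact ⟨fun ⟨n, hn⟩ => ⟨⟨n⟩, hn⟩, fun ⟨n, hn⟩ => ⟨n.down, hn⟩⟩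
  rw [h2]
  refine (mk_iUnion_le _).trans (mul_le_of_le hμ ?_ (ciSup_le' fun n => h n.down))
  exact mk_le_aleph0.trans hμ

theorem mk_biUnion_le_of_le {α β : Type u} {s : Set α} {t : α → Set β} {μ : Cardinal.{u}}
    (hμ : ℵ₀ ≤ μ) (hs : #s ≤ μ) (ht : ∀ a ∈ s, #(t a) ≤ μ) : #(⋃ a ∈ s, t a : Set β) ≤ μ :=
  (mk_biUnion_le t s).trans (mul_le_of_le hμ hs (ciSup_le' fun a => ht a.1 a.2))

theorem mk_le_of_injOn {α β : Type u} {s : Set α} {t : Set β} (f : α → β) (hm : MapsTo f s t)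
    (hi : InjOn f s) : #s ≤ #t :=
  mk_le_of_injective (f := hm.restrict f s t) (hm.restrict_inj.2 hi)

/-- A small family of sets can be named by points, each point naming countably many sets. -/
theorem exists_naming (𝒳 : Set (Set P)) (Q : Set P) (hQ : Q.Nonempty)
    (h : #𝒳 ≤ max #Q ℵ₀) :
    ∃ nm : Set P → P, (∀ W, nm W ∈ Q) ∧ ∀ a, {W ∈ 𝒳 | nm W = a}.Countable := by
  classical
  have h1 : #𝒳 ≤ #(Q × ULift.{u} ℕ) := by
    refine h.trans ?_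
    have hne : #Q ≠ 0 := mk_ne_zero_iff.2 hQ.to_subtype
    simp only [mk_prod, lift_id, mk_uLift, mk_nat, lift_aleph0]
    exact max_le (le_mul_right aleph0_ne_zero) (le_mul_left hne)
  obtain ⟨e⟩ := (le_def _ _).1 h1
  obtain ⟨q, hq⟩ := hQ
  refine ⟨fun W => if hW : W ∈ 𝒳 then (e ⟨W, hW⟩).1.1 else q, fun W => ?_, fun a => ?_⟩
  · by_cases hW : W ∈ 𝒳
    · simp only [dif_pos hW]; exact (e ⟨W, hW⟩).1.2
    · simp only [dif_neg hW]; exact hq
  · rw [← countable_coe_iff]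
    refine Function.Injective.countable
      (f := fun W : {W ∈ 𝒳 | (if hW : W ∈ 𝒳 then (e ⟨W, hW⟩).1.1 else q) = a} =>
        (e ⟨W.1, W.2.1⟩).2) ?_
    intro W W' hWW
    have h2 := W.2.2
    have h3 := W'.2.2
    simp only [dif_pos W.2.1] at h2
    simp only [dif_pos W'.2.1] at h3
    have h4 : e ⟨W.1, W.2.1⟩ = e ⟨W'.1, W'.2.1⟩ :=
      Prod.ext (Subtype.ext (h2.trans h3.symm)) hWW
    have h5 : (⟨W.1, W.2.1⟩ : 𝒳) = ⟨W'.1, W'.2.1⟩ := e.injective h4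
    exact Subtype.ext (congrArg (fun z : 𝒳 => z.1) h5)

theorem mk_named_le {𝒳 : Set (Set P)} {nm : Set P → P}
    (hnm : ∀ a, {W ∈ 𝒳 | nm W = a}.Countable) (A : Set P) :
    #{W ∈ 𝒳 | nm W ∈ A} ≤ max #A ℵ₀ := by
  have h : {W ∈ 𝒳 | nm W ∈ A} ⊆ ⋃ a ∈ A, {V ∈ 𝒳 | nm V = a} := fun W hW =>
    mem_biUnion hW.2 (show W ∈ {V ∈ 𝒳 | nm V = nm W} from ⟨hW.1, rfl⟩)
  refine le_trans (mk_le_mk_of_subset h) ?_
  exact mk_biUnion_le_of_le (t := fun a => {V ∈ 𝒳 | nm V = a}) (le_max_right _ _)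
    (le_max_left _ _) fun a _ =>
      (le_aleph0_iff_set_countable.2 (hnm a)).trans (le_max_right _ _)

theorem named_countable {𝒳 : Set (Set P)} {nm : Set P → P}
    (hnm : ∀ a, {W ∈ 𝒳 | nm W = a}.Countable) {A : Set P} (hA : A.Countable) :
    {W ∈ 𝒳 | nm W ∈ A}.Countable :=
  (hA.biUnion fun a _ => hnm a).mono fun W hW =>
    mem_biUnion hW.2 (show W ∈ {V ∈ 𝒳 | nm V = nm W} from ⟨hW.1, rfl⟩)

/-- An operation whose closed sets contain the witnesses for all pairs of named sets. -/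
theorem exists_witness_op' {𝒳 : Set (Set P)} {nm : Set P → P}
    (hnm : ∀ a, {W ∈ 𝒳 | nm W = a}.Countable) (wit : Set P → Set P → Set P)
    {μ : Cardinal.{u}} (hμ : ℵ₀ ≤ μ) (hwit : ∀ W W', #(wit W W') ≤ μ) :
    ∃ D : Finset P → Set P, (∀ s, #(D s) ≤ μ) ∧ ∀ A, Closed D A ↔
      ∀ W ∈ 𝒳, ∀ W' ∈ 𝒳, nm W ∈ A → nm W' ∈ A → wit W W' ⊆ A := by
  classical
  refine ⟨fun s => ⋃ W ∈ {W ∈ 𝒳 | nm W ∈ (s : Set P)}, ⋃ W' ∈ {W ∈ 𝒳 | nm W ∈ (s : Set P)},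
    wit W W', fun s => ?_, fun A => ⟨fun hA W hW W' hW' h1 h2 x hx => ?_, fun h s hs => ?_⟩⟩
  · have h0 := (le_aleph0_iff_set_countable.2 (named_countable hnm s.countable_toSet)).trans hμ
    exact mk_biUnion_le_of_le hμ h0 fun W _ => mk_biUnion_le_of_le hμ h0 fun W' _ => hwit W W'
  · refine hA {nm W, nm W'} ?_ ?_
    · rw [Finset.coe_pair]
      exact pair_subset h1 h2
    · exact mem_biUnion (show W ∈ {W ∈ 𝒳 | nm W ∈ (({nm W, nm W'} : Finset P) : Set P)} from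
        ⟨hW, by simp⟩) (mem_biUnion
          (show W' ∈ {V ∈ 𝒳 | nm V ∈ (({nm W, nm W'} : Finset P) : Set P)} from ⟨hW', by simp⟩) hx)
  · exact iUnion₂_subset fun W hW => iUnion₂_subset fun W' hW' =>
      h W hW.1 W' hW'.1 (hs hW.2) (hs hW'.2)

theorem exists_witness_op {𝒳 : Set (Set P)} {nm : Set P → P}
    (hnm : ∀ a, {W ∈ 𝒳 | nm W = a}.Countable) (wit : Set P → Set P → Set P)
    (hwit : ∀ W W', (wit W W').Countable) :
    ∃ D : Finset P → Set P, (∀ s, (D s).Countable) ∧ ∀ A, Closed D A ↔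
      ∀ W ∈ 𝒳, ∀ W' ∈ 𝒳, nm W ∈ A → nm W' ∈ A → wit W W' ⊆ A := by
  obtain ⟨D, hD, hD'⟩ := exists_witness_op' hnm wit le_rfl
    fun W W' => le_aleph0_iff_set_countable.2 (hwit W W')
  exact ⟨D, fun s => le_aleph0_iff_set_countable.1 (hD s), hD'⟩

/-- An operation whose closed sets decide inclusion between named sets. -/
theorem exists_ext_op {𝒳 : Set (Set P)} {nm : Set P → P}
    (hnm : ∀ a, {W ∈ 𝒳 | nm W = a}.Countable) :
    ∃ D : Finset P → Set P, (∀ s, (D s).Countable) ∧ ∀ A, Closed D A →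
      ∀ W ∈ 𝒳, ∀ W' ∈ 𝒳, nm W ∈ A → nm W' ∈ A → W ∩ A ⊆ W' → W ⊆ W' := by
  have h1 : ∀ W W' : Set P, ∃ C : Set P, C.Countable ∧ (W ∩ C ⊆ W' → W ⊆ W') := by
    intro W W'
    by_cases h : W ⊆ W'
    · exact ⟨∅, countable_empty, fun _ => h⟩
    · obtain ⟨y, hy, hy'⟩ := not_subset.1 h
      exact ⟨{y}, countable_singleton y, fun h2 => (hy' (h2 ⟨hy, rfl⟩)).elim⟩
  choose wit hw hw' using h1
  obtain ⟨D, hD, hD'⟩ := exists_witness_op hnm wit hw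
  exact ⟨D, hD, fun A hA W hW W' hW' h2 h3 h4 => hw' W W'
    ((inter_subset_inter_right _ ((hD' A).1 hA W hW W' hW' h2 h3)).trans h4)⟩

theorem closed_union {G G' : Finset P → Set P} {A : Set P} :
    Closed (fun s => G s ∪ G' s) A ↔ Closed G A ∧ Closed G' A :=
  ⟨fun h => ⟨h.of_le fun _ => subset_union_left, h.of_le fun _ => subset_union_right⟩,
    fun h s hs => union_subset (h.1 s hs) (h.2 s hs)⟩

/-- An uncountable set is enumerated along a well order with small initial segments. -/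
theorem exists_filtration (Q : Set P) (hQ : ℵ₀ < #Q) :
    ∃ (ι : Type u) (_ : LinearOrder ι) (_ : WellFoundedLT ι) (e : ι → P),
      range e = Q ∧ #ι = #Q ∧ ∀ i : ι, #(Iic i) < #Q := by
  obtain ⟨e⟩ := Cardinal.eq.1 (mk_ord_toType #Q)
  refine ⟨(#Q).ord.ToType, inferInstance, inferInstance, fun i => (e i).1, ?_, mk_ord_toType _,
    fun i => ?_⟩
  · ext a
    exact ⟨fun ⟨i, hi⟩ => hi ▸ (e i).2, fun ha => ⟨e.symm ⟨a, ha⟩, by simp⟩⟩
  · rw [← Iio_insert]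
    have h1 : #(Iio i) < #Q := by simpa using mk_Iio_lt i (by simp)
    refine (mk_insert_le).trans_lt (add_lt_of_lt hQ.le h1 ?_)
    exact one_lt_aleph0.trans hQ

/-- Traces of neighbourhoods on `Q`. -/
def Tr (N : P → Set P) (Q : Set P) : Set (Set P) := range fun p => N p ∩ Q

theorem exists_rep (N : P → Set P) [Nonempty P] (Q : Set P) :
    ∃ r : Set P → P, ∀ t ∈ Tr N Q, N (r t) ∩ Q = t := by
  have h : ∀ t : Set P, ∃ p, t ∈ Tr N Q → N p ∩ Q = t := by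
    intro t
    by_cases ht : t ∈ Tr N Q
    · obtain ⟨p, hp⟩ := ht
      exact ⟨p, fun _ => hp⟩
    · exact ⟨Classical.arbitrary P, fun h => (ht h).elim⟩
  choose r hr using h
  exact ⟨r, hr⟩

end Pool.Agent.Lib.MP_71509e_al.OB
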