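import Mathlib
import Pool.Agent.Lib.MP_71509e_al.OB.Tools

set_option autoImplicit false

namespace Pool.Agent.Lib.MP_71509e_al.OB

open Cardinal Set

universe u

variable {P : Type u} {N : P → Set P} {κ : Cardinal.{u}}

theorem mk_Iio_idx (i : κ.ord.ToType) : #(Iio i) < κ := by
  simpa using mk_Iio_lt i (by simp)

theorem mk_Iic_idx (hκ : ℵ₀ ≤ κ) (i : κ.ord.ToType) : #(Iic i) < κ := by
  rw [← Iio_insert]
  exact mk_insert_le.trans_lt (add_lt_of_lt hκ (mk_Iio_idx i) (one_lt_aleph0.trans_le hκ))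

theorem bdd_idx (hκ : κ.IsRegular) {s : Set κ.ord.ToType} (hs : #s < κ) :
    ∃ j, ∀ i ∈ s, i < j := by
  by_contra hcon
  have h1 : IsCofinal s := fun j => by
    by_contra h2
    exact hcon ⟨j, fun i hi => not_le.1 fun h => h2 ⟨i, hi, h⟩⟩
  have h2 := Order.cof_le h1
  rw [Ordinal.cof_toType, hκ.cof_ord] at h2
  exact absurd hs (not_lt.2 h2)

theorem exists_gt_of_cofinal (hκ : κ.IsRegular) {T : Set κ.ord.ToType} (hT : IsCofinal T)
    {s : Set κ.ord.ToType} (hs : #s < κ) : ∃ j ∈ T, ∀ i ∈ s, i < j := by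
  obtain ⟨j, hj⟩ := bdd_idx hκ hs
  obtain ⟨k, hk, hjk⟩ := hT j
  exact ⟨k, hk, fun i hi => (hj i hi).trans_le hjk⟩

theorem club_of_op (hκ : κ.IsRegular) (hκ' : ℵ₀ < κ)
    (G : Finset κ.ord.ToType → Set κ.ord.ToType) (hG : ∀ s, #(G s) < κ) :
    IsClub {δ | Closed G (Iio δ)} := by
  constructor
  · intro d hd hne _ a ha s hs
    have h1 : ∃ x ∈ d, (s : Set κ.ord.ToType) ⊆ Iio x := by
      rcases s.eq_empty_or_nonempty with h | h
      · obtain ⟨x, hx⟩ := hne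
        exact ⟨x, hx, by simp [h]⟩
      · obtain ⟨x, hx, h2⟩ := (lt_isLUB_iff ha).1 (hs (s.max'_mem h))
        exact ⟨x, hx, fun y hy => (s.le_max' y hy).trans_lt h2⟩
    obtain ⟨x, hx, h2⟩ := h1
    exact (hd hx s h2).trans (Iio_subset_Iio (ha.1 hx))
  · intro a
    have h1 : ∀ s : Finset κ.ord.ToType, #(G s ∪ ⋃ i ∈ (s : Set κ.ord.ToType), Iic i : Set _) < κ :=
      fun s => (mk_union_le _ _).trans_lt (add_lt_of_lt hκ.1 (hG s)
        ((card_biUnion_lt_iff_forall_of_isRegular hκ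
          ((lt_aleph0_iff_set_finite.2 s.finite_toSet).trans hκ')).2
            fun i _ => mk_Iic_idx hκ.1 i))
    have h2 := closed_union.1 (closed_cl
      (G := fun s => G s ∪ ⋃ i ∈ (s : Set κ.ord.ToType), Iic i) (Iic a))
    have h3 := subset_cl (G := fun s => G s ∪ ⋃ i ∈ (s : Set κ.ord.ToType), Iic i) (Iic a)
    obtain ⟨j, hj⟩ := bdd_idx hκ (mk_cl_lt hκ hκ' h1 (mk_Iic_idx hκ.1 a))
    generalize cl (fun s => G s ∪ ⋃ i ∈ (s : Set κ.ord.ToType), Iic i) (Iic a) = B at h2 h3 hj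
    obtain ⟨δ, hδ, hmin⟩ := (wellFounded_lt (α := κ.ord.ToType)).has_min Bᶜ
      ⟨j, fun h => lt_irrefl _ (hj j h)⟩
    have h4 : B = Iio δ := by
      ext i
      refine ⟨fun hi => mem_Iio.2 (not_le.1 fun h => hδ ?_), fun hi => not_not.1 fun h => hmin i h hi⟩
      exact h2.2 {i} (by simpa using hi) (mem_biUnion (by simp) h)
    refine ⟨δ, show Closed G (Iio δ) from h4 ▸ h2.1, le_of_lt ?_⟩
    have h5 : a ∈ B := h3 (mem_Iic.2 le_rfl)
    rwa [h4] at h5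

/-- Pressing down on a regular uncountable cardinal. -/
theorem press_idx (hκ : κ.IsRegular) (hκ' : ℵ₀ < κ) {T : Type u} {S : Set κ.ord.ToType}
    (hS : IsStationary S) (K : Finset κ.ord.ToType → Set T) (hK : ∀ s, #(K s) < κ)
    (g : κ.ord.ToType → T)
    (hg : ∀ δ ∈ S, ∃ s : Finset κ.ord.ToType, (s : Set κ.ord.ToType) ⊆ Iio δ ∧ g δ ∈ K s) :
    ∃ t, IsCofinal {δ ∈ S | g δ = t} := by
  by_contra hcon
  have h1 : ∀ t, ∃ b, ∀ δ ∈ S, g δ = t → δ < b := by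
    intro t
    by_contra h2
    refine hcon ⟨t, fun b => ?_⟩
    by_contra h3
    exact h2 ⟨b, fun δ hδ ht => not_le.1 fun h => h3 ⟨δ, ⟨hδ, ht⟩, h⟩⟩
  choose b hb using h1
  obtain ⟨δ, hδ, hc⟩ := hS (club_of_op hκ hκ' (fun s => b '' K s)
    fun s => mk_image_le.trans_lt (hK s))
  obtain ⟨s, hs, hgs⟩ := hg δ hδ
  exact lt_asymm (hb _ δ hδ rfl) (hc s hs (mem_image_of_mem b hgs))

/-- Every stationary list of traces has a cofinal branch. -/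
def NoList (N : P → Set P) : Prop :=
  ∀ κ : Cardinal.{u}, κ.IsRegular → ℵ₀ < κ → ∀ (e p : κ.ord.ToType → P) (S : Set κ.ord.ToType),
    IsStationary S → ∃ W : Set κ.ord.ToType, IsCofinal {δ ∈ S | ∀ ξ < δ, e ξ ∈ N (p δ) ↔ ξ ∈ W}

theorem NoList.pullback (h : NoList N) {T : Type u} (f : T → P) :
    NoList fun t => f ⁻¹' N (f t) :=
  fun κ h1 h2 e p S hS => h κ h1 h2 (f ∘ e) (f ∘ p) S hS

theorem Cover.noList (h : Cover N) : NoList N := by
  classical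
  intro κ hκ hκ' e p S hS
  obtain ⟨𝓕, h1, h2, h3⟩ := h
  let g : κ.ord.ToType → Set (Set P × Set P) := fun δ => {C ∈ 𝓕 | p δ ∈ C.1 ∧ ∃ ξ < δ, e ξ ∈ C.2}
  let H : Finset κ.ord.ToType → Set (Set P × Set P) := fun s => {C ∈ 𝓕 | ∃ ξ ∈ s, e ξ ∈ C.2}
  have hH : ∀ s, (H s).Finite := by
    intro s
    refine (s.finite_toSet.biUnion fun ξ _ => h3 (e ξ)).subset ?_
    rintro C ⟨hC, ξ, hξ, hy⟩
    exact mem_biUnion (Finset.mem_coe.2 hξ) ⟨hC, Or.inr hy⟩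
  obtain ⟨t, ht⟩ := press_idx hκ hκ' hS (fun s => 𝒫 (H s))
    (fun s => (lt_aleph0_iff_set_finite.2 (hH s).finite_subsets).trans hκ') g (by
    intro δ _
    have hfin : (g δ).Finite := (h3 (p δ)).subset fun C hC => ⟨hC.1, Or.inl hC.2.1⟩
    have hch : ∀ C : g δ, ∃ ξ < δ, e ξ ∈ C.1.2 := fun C => C.2.2.2
    choose y hy hy' using hch
    have := hfin.to_subtype
    refine ⟨(finite_range y).toFinset, ?_, ?_⟩
    · rw [Finite.coe_toFinset]
      rintro _ ⟨C, rfl⟩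
      exact hy C
    · intro C hC
      exact ⟨hC.1, y ⟨C, hC⟩, (Finite.mem_toFinset _).2 (mem_range_self _), hy' ⟨C, hC⟩⟩)
  refine ⟨{ξ | ∃ C ∈ t, e ξ ∈ C.2}, ht.mono ?_⟩
  rintro δ ⟨hδ, rfl⟩
  refine ⟨hδ, fun ξ hξ => ⟨fun h => ?_, fun ⟨C, hC, h⟩ => h1 C hC.1 _ hC.2.1 _ h⟩⟩
  obtain ⟨C, hC, hp, hy⟩ := h2 _ _ h
  exact ⟨C, ⟨hC, hp, ξ, hξ, hy⟩, hy⟩

/-- There are few traces on every set. -/
theorem NoList.mk_tr_le (h : NoList N) (Q : Set P) : #(Tr N Q) ≤ max #Q ℵ₀ := by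
  classical
  rcases Q.eq_empty_or_nonempty with hQ | ⟨q, hq⟩
  · refine le_trans (le_aleph0_iff_set_countable.2 ?_) (le_max_right _ _)
    refine (countable_singleton ∅).mono ?_
    rintro _ ⟨p, rfl⟩
    simp [hQ]
  by_contra hcon
  have : Nonempty P := ⟨q⟩
  have : Nonempty Q := ⟨⟨q, hq⟩⟩
  have hμ : ℵ₀ ≤ max #Q ℵ₀ := le_max_right _ _
  have hQ : #Q ≤ max #Q ℵ₀ := le_max_left _ _
  generalize max #Q ℵ₀ = μ at hcon hμ hQ
  have hκ := isRegular_succ hμ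
  have hκ' : ℵ₀ < Order.succ μ := hμ.trans_lt (Order.lt_succ μ)
  obtain ⟨t⟩ : Nonempty ((Order.succ μ).ord.ToType ↪ Tr N Q) := by
    rw [← le_def, mk_ord_toType]
    exact Order.succ_le_of_lt (not_le.1 hcon)
  obtain ⟨r, hr⟩ := exists_rep N Q
  obtain ⟨j⟩ : Nonempty (Q ↪ (Order.succ μ).ord.ToType) := by
    rw [← le_def, mk_ord_toType]
    exact hQ.trans (Order.le_succ μ)
  obtain ⟨W, hW⟩ := h _ hκ hκ' (fun ξ => (Function.invFun j ξ).1) (fun δ => r (t δ)) univ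
    (by have : Nonempty (Order.succ μ).ord.ToType := ⟨j ⟨q, hq⟩⟩; exact IsStationary.univ)
  have hs : #(range j) < Order.succ μ := (mk_range_le.trans hQ).trans_lt (Order.lt_succ μ)
  obtain ⟨δ, hδ, h1⟩ := exists_gt_of_cofinal hκ hW hs
  obtain ⟨δ', hδ', h2⟩ := exists_gt_of_cofinal hκ hW (mk_Iic_idx hκ.1 δ)
  have h3 : δ < δ' := h2 δ (mem_Iic.2 le_rfl)
  refine h3.ne (t.injective (Subtype.ext ?_))
  rw [← hr _ (t δ).2, ← hr _ (t δ').2]
  ext y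
  refine and_congr_left fun hy => ?_
  have h4 := hδ.2 _ (h1 _ (mem_range_self ⟨y, hy⟩))
  have h5 := hδ'.2 _ ((h1 _ (mem_range_self ⟨y, hy⟩)).trans h3)
  rw [Function.leftInverse_invFun j.injective] at h4 h5
  exact h4.trans h5.symm

end Pool.Agent.Lib.MP_71509e_al.OB
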