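import Mathlib
import Pool.Agent.Lib.MP_71509e_al.OB.Tools

set_option autoImplicit false

namespace Pool.Agent.Lib.MP_71509e_al.OB

open Cardinal Set

universe u

variable {P : Type u} {N : P → Set P}

/-- Every point above the virtual point `W` is related to every point above `Z`. -/
def Rel (N : P → Set P) (W Z : Set P) : Prop := ∀ x y, W ⊆ N x → Z ⊆ N y → y ∈ N x

/-- A system of approximations of neighbourhoods on the closed sets of an operation. -/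
structure Sys (N : P → Set P) where
  X : Set (Set P)
  nm : Set P → P
  G : Finset P → Set P
  w : Set P → P → Set P
  cnt : ∀ a, {W ∈ X | nm W = a}.Countable
  mem : ∀ A, Closed G A → ∀ p, w A p ∈ X
  named : ∀ A, Closed G A → ∀ p, nm (w A p) ∈ A
  sub : ∀ A, Closed G A → ∀ p, w A p ⊆ N p
  sup : ∀ A, Closed G A → ∀ p, N p ∩ A ⊆ w A p
  ext : ∀ A, Closed G A → ∀ W ∈ X, ∀ W' ∈ X, nm W ∈ A → nm W' ∈ A → W ∩ A ⊆ W' → W ⊆ W'
  rel : ∀ A, Closed G A → ∀ W ∈ X, ∀ Z ∈ X, nm W ∈ A → nm Z ∈ A →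
    (∀ x ∈ A, ∀ y ∈ A, W ⊆ N x → Z ⊆ N y → y ∈ N x) → Rel N W Z

theorem exists_sys_of_good {X : Set (Set P)} {nm : Set P → P}
    (hnm : ∀ a, {W ∈ X | nm W = a}.Countable) {G : Finset P → Set P}
    (hG : ∀ A, Closed G A → ∀ p, ∃ W ∈ X, nm W ∈ A ∧ W ⊆ N p ∧ N p ∩ A ⊆ W) :
    ∃ S : Sys N, S.X = X ∧ ∃ D : Finset P → Set P, (∀ s, (D s).Countable) ∧
      ∀ s, S.G s = G s ∪ D s := by
  obtain ⟨D, hD, hD'⟩ := exists_ext_op hnm
  have h1 : ∀ W Z : Set P, ∃ C : Set P, C.Countable ∧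
      ((∀ x ∈ C, ∀ y ∈ C, W ⊆ N x → Z ⊆ N y → y ∈ N x) → Rel N W Z) := by
    intro W Z
    by_cases h : Rel N W Z
    · exact ⟨∅, countable_empty, fun _ => h⟩
    · have h2 : ∃ x y, W ⊆ N x ∧ Z ⊆ N y ∧ y ∉ N x := by
        by_contra h3
        refine h fun x y hx hy => ?_
        by_contra h4
        exact h3 ⟨x, y, hx, hy, h4⟩
      obtain ⟨x, y, hx, hy, hxy⟩ := h2
      exact ⟨{x, y}, (toFinite _).countable,
        fun h3 => (hxy (h3 x (by simp) y (by simp) hx hy)).elim⟩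
  choose C hC hC' using h1
  obtain ⟨E, hE, hE'⟩ := exists_witness_op hnm C hC
  have h2 : ∀ (A : Set P) (p : P), ∃ W, Closed G A →
      W ∈ X ∧ nm W ∈ A ∧ W ⊆ N p ∧ N p ∩ A ⊆ W := by
    intro A p
    by_cases hA : Closed G A
    · obtain ⟨W, hW⟩ := hG A hA p
      exact ⟨W, fun _ => hW⟩
    · exact ⟨∅, fun h => (hA h).elim⟩
  choose w hw using h2
  have c1 : ∀ A, Closed (fun s => G s ∪ (D s ∪ E s)) A → Closed G A :=
    fun A hA => (closed_union.1 hA).1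
  have c2 : ∀ A, Closed (fun s => G s ∪ (D s ∪ E s)) A → Closed D A ∧ Closed E A :=
    fun A hA => closed_union.1 (closed_union.1 hA).2
  exact ⟨{
    X := X
    nm := nm
    G := fun s => G s ∪ (D s ∪ E s)
    w := w
    cnt := hnm
    mem := fun A hA p => (hw A p (c1 A hA)).1
    named := fun A hA p => (hw A p (c1 A hA)).2.1
    sub := fun A hA p => (hw A p (c1 A hA)).2.2.1
    sup := fun A hA p => (hw A p (c1 A hA)).2.2.2
    ext := fun A hA => hD' A (c2 A hA).1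
    rel := fun A hA W hW Z hZ h3 h4 h5 => hC' W Z fun x hx y hy =>
      h5 x ((hE' A).1 (c2 A hA).2 W hW Z hZ h3 h4 hx) y
        ((hE' A).1 (c2 A hA).2 W hW Z hZ h3 h4 hy) }, rfl,
    fun s => D s ∪ E s, fun s => (hD s).union (hE s), fun _ => rfl⟩

theorem Rel.symm (hs : ∀ p q, q ∈ N p → p ∈ N q) {W Z : Set P} (h : Rel N W Z) : Rel N Z W :=
  fun x y hx hy => hs _ _ (h y x hy hx)

/-- Sets approximated from above by neighbourhoods on all sets of size below `κ`. -/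
def LimLt (N : P → Set P) (κ : Cardinal.{u}) : Set (Set P) :=
  {W | ∀ D : Set P, #D < κ → ∃ p, W ⊆ N p ∧ N p ∩ D ⊆ W}

/-- A small family of virtual points is realised by points. -/
theorem exists_reps {κ : Cardinal.{u}} (hκ : ℵ₀ ≤ κ) {A : Set P} (hA : #A < κ)
    {𝒱 : Set (Set P)} (h𝒱 : 𝒱 ⊆ LimLt N κ) (hc : #𝒱 < κ) :
    ∃ (r : 𝒱 → P) (lt : 𝒱 → 𝒱 → Prop), (∀ W Z, lt W Z ∨ W = Z ∨ lt Z W) ∧
      ∀ W : 𝒱, W.1 ⊆ N (r W) ∧ N (r W) ∩ A ⊆ W.1 ∧ ∀ Z, lt Z W → r Z ∈ N (r W) → r Z ∈ W.1 := by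
  have h1 : ∀ (W : 𝒱) (D : Set P), ∃ p, W.1 ⊆ N p ∧ (#D < κ → N p ∩ D ⊆ W.1) := by
    intro W D
    by_cases hD : #D < κ
    · obtain ⟨p, h2, h3⟩ := h𝒱 W.2 D hD
      exact ⟨p, h2, fun _ => h3⟩
    · obtain ⟨p, h2, -⟩ := h𝒱 W.2 A hA
      exact ⟨p, h2, fun h => (hD h).elim⟩
  choose ap hap hap' using h1
  have wf : WellFounded (WellOrderingRel (α := 𝒱)) := IsWellFounded.wf
  let r : 𝒱 → P := wf.fix fun W g =>
    ap W (A ∪ range fun Z : {Z // WellOrderingRel Z W} => g Z.1 Z.2)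
  have hr : ∀ W, r W = ap W (A ∪ range fun Z : {Z // WellOrderingRel Z W} => r Z.1) :=
    fun W => WellFounded.fix_eq _ _ W
  refine ⟨r, WellOrderingRel, fun W Z => trichotomous W Z, fun W => ?_⟩
  have h2 : #(A ∪ range fun Z : {Z // WellOrderingRel Z W} => r Z.1 : Set P) < κ :=
    (mk_union_le _ _).trans_lt (add_lt_of_lt hκ hA
      ((mk_range_le.trans (mk_subtype_le _)).trans_lt hc))
  have h3 := hap' W _ h2
  have h4 := hap W (A ∪ range fun Z : {Z // WellOrderingRel Z W} => r Z.1)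
  rw [← hr W] at h3 h4
  exact ⟨h4, fun y hy => h3 ⟨hy.1, Or.inl hy.2⟩, fun Z hZ h => h3 ⟨h, Or.inr ⟨⟨Z, hZ⟩, rfl⟩⟩⟩

namespace Sys

variable (S : Sys N)

theorem persist {A B : Set P} (hA : Closed S.G A) (hB : Closed S.G B) (hBA : B ⊆ A) {p : P}
    (h : S.nm (S.w A p) ∈ B) : S.w B p = S.w A p := by
  apply Subset.antisymm
  · exact S.ext B hB _ (S.mem B hB p) _ (S.mem A hA p) (S.named B hB p) h
      fun y hy => S.sup A hA p ⟨S.sub B hB p hy.1, hBA hy.2⟩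
  · exact S.ext B hB _ (S.mem A hA p) _ (S.mem B hB p) h (S.named B hB p)
      fun y hy => S.sup B hB p ⟨S.sub A hA p hy.1, hy.2⟩

theorem descent {A B : Set P} (hA : Closed S.G A) (hB : Closed S.G B) (hBA : B ⊆ A) {p q : P}
    (hr : Rel N (S.w A p) (S.w A q)) (h : S.nm (S.w A q) ∈ B) : Rel N (S.w B p) (S.w B q) := by
  refine S.rel B hB _ (S.mem B hB p) _ (S.mem B hB q) (S.named B hB p) (S.named B hB q)
    fun x _ y hy hx hqy => ?_
  rw [S.persist hA hB hBA h] at hqy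
  exact hx (S.sup B hB p ⟨hr p y (S.sub A hA p) hqy, hy⟩)

/-- The pairs related at level `A` are covered by a point-finite family of complete pieces. -/
def CovOn (A : Set P) : Prop :=
  ∃ 𝓕 : Set (Set P × Set P), (∀ C ∈ 𝓕, ∀ x ∈ C.1, ∀ y ∈ C.2, y ∈ N x) ∧
    (∀ x y : P, Rel N (S.w A x) (S.w A y) → ∃ C ∈ 𝓕, x ∈ C.1 ∧ y ∈ C.2) ∧
    ∀ x : P, {C ∈ 𝓕 | x ∈ C.1 ∨ x ∈ C.2}.Finite

theorem covOn_small (hs : ∀ p q, q ∈ N p → p ∈ N q) (hi : ∀ p, p ∉ N p) {κ : Cardinal.{u}}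
    (hκ : ℵ₀ < κ) (hX : S.X ⊆ LimLt N κ)
    (ih : ∀ (T : Type u) (f : T → P), #T < κ → Cover fun t => f ⁻¹' N (f t))
    {A : Set P} (hA : Closed S.G A) (hc : #A < κ) : S.CovOn A := by
  have h𝒱 : #{W ∈ S.X | S.nm W ∈ A} < κ := (mk_named_le S.cnt A).trans_lt (max_lt hc hκ)
  obtain ⟨r, lt, htri, hr⟩ := exists_reps hκ.le hc (fun W hW => hX hW.1) h𝒱
  have key : ∀ W Z, r Z ∈ N (r W) → Rel N W.1 Z.1 := by
    intro W Z h
    refine S.rel A hA _ W.2.1 _ Z.2.1 W.2.2 Z.2.2 fun x hx y hy hW hZ => ?_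
    rcases htri W Z with h1 | h1 | h1
    · exact hW ((hr W).2.1 ⟨hs _ _ (hZ ((hr Z).2.2 W h1 (hs _ _ h))), hy⟩)
    · exact (hi _ (h1 ▸ h)).elim
    · exact hs _ _ (hZ ((hr Z).2.1 ⟨hs _ _ (hW ((hr W).2.2 Z h1 h)), hx⟩))
  obtain ⟨𝓕, h1, h2, h3⟩ := ih _ r h𝒱
  let v : P → {W ∈ S.X | S.nm W ∈ A} := fun p => ⟨S.w A p, S.mem A hA p, S.named A hA p⟩
  let pull : Set {W ∈ S.X | S.nm W ∈ A} × Set {W ∈ S.X | S.nm W ∈ A} → Set P × Set P :=
    fun C => (v ⁻¹' C.1, v ⁻¹' C.2)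
  refine ⟨pull '' 𝓕, ?_, fun x y hxy => ?_, fun x => ((h3 (v x)).image pull).subset ?_⟩
  · rintro _ ⟨C, hC, rfl⟩ x hx y hy
    exact key _ _ (h1 C hC _ hx _ hy) x y (S.sub A hA x) (S.sub A hA y)
  · obtain ⟨C, hC, hx, hy⟩ := h2 (v x) (v y) (hxy _ _ (hr (v x)).1 (hr (v y)).1)
    exact ⟨pull C, mem_image_of_mem _ hC, hx, hy⟩
  · rintro _ ⟨⟨C, hC, rfl⟩, hx⟩
    exact ⟨C, ⟨hC, hx⟩, rfl⟩

theorem covOn_step (hs : ∀ p q, q ∈ N p → p ∈ N q) {A : Set P} (hA : Closed S.G A)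
    {ι : Type u} [LinearOrder ι] [WellFoundedLT ι] (e : ι → P) (he : range e = A)
    (ih : ∀ i, S.CovOn (cl S.G (e '' Iic i))) (ih0 : S.CovOn (cl S.G ∅)) : S.CovOn A := by
  classical
  let a : ι → Set P := fun i => cl S.G (e '' Iic i)
  let b : ι → Set P := fun i => cl S.G (e '' Iio i)
  have ha : ∀ i, Closed S.G (a i) := fun i => closed_cl _
  have hb : ∀ i, Closed S.G (b i) := fun i => closed_cl _
  have haA : ∀ i, a i ⊆ A := fun i => cl_min hA (he ▸ image_subset_range _ _)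
  have hba : ∀ i, b i ⊆ a i := fun i => cl_mono (image_mono Iio_subset_Iic_self)
  have hab : ∀ {i j}, i < j → a i ⊆ b j := fun h => cl_mono (image_mono (Iic_subset_Iio.2 h))
  have haa : Monotone a := fun i j h => cl_mono (image_mono (Iic_subset_Iic.2 h))
  have h0 : Closed S.G (cl S.G ∅) := closed_cl _
  have h0b : ∀ i, cl S.G ∅ ⊆ b i := fun i => cl_mono (empty_subset _)
  have hbelow : ∀ i, ∀ x ∈ b i, ∀ y ∈ b i,
      (x ∈ cl S.G ∅ ∧ y ∈ cl S.G ∅) ∨ ∃ j < i, x ∈ a j ∧ y ∈ a j := by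
    intro i x hx y hy
    obtain ⟨s, hs1, hx'⟩ := exists_finset_cl hx
    obtain ⟨t, ht1, hy'⟩ := exists_finset_cl hy
    have h1 : ((s ∪ t : Finset P) : Set P) ⊆ e '' Iio i := by
      rw [Finset.coe_union]; exact union_subset hs1 ht1
    obtain ⟨r, hr, hr'⟩ := Finset.subset_set_image_iff.1 h1
    have h2 : (s : Set P) ⊆ e '' r ∧ (t : Set P) ⊆ e '' r := by
      rw [← union_subset_iff, ← Finset.coe_union, ← hr', Finset.coe_image]
    rcases r.eq_empty_or_nonempty with h | h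
    · rw [h, Finset.coe_empty, image_empty] at h2
      exact Or.inl ⟨cl_mono h2.1 hx', cl_mono h2.2 hy'⟩
    · have h3 : e '' r ⊆ e '' Iic (r.max' h) := image_mono fun k hk => r.le_max' k hk
      exact Or.inr ⟨r.max' h, hr (r.max'_mem h), cl_mono (h2.1.trans h3) hx',
        cl_mono (h2.2.trans h3) hy'⟩
  choose F hF1 hF2 hF3 using ih
  obtain ⟨F0, h01, h02, h03⟩ := ih0
  let nw : ι → Set P := fun i => {p | S.nm (S.w (a i) p) ∉ b i}
  have hfin : ∀ p, {i | p ∈ nw i}.Finite := by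
    intro p
    by_contra hinf
    let g : ℕ ↪ {i | p ∈ nw i} := Set.Infinite.natEmbedding _ hinf
    obtain ⟨k, hk⟩ := exists_increasing_or_nonincreasing_subseq (· < ·) fun n => (g n).1
    have hk' : StrictMono fun n => (g (k n)).1 := by
      rcases hk with hk | hk
      · exact fun m n h => hk m n h
      · exfalso
        refine not_strictAnti_of_wellFoundedLT (fun n => (g (k n)).1)
          (strictAnti_nat_of_succ_lt fun n => ?_)
        refine lt_of_le_of_ne (not_lt.1 (hk n (n + 1) (Nat.lt_succ_self n))) fun h => ?_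
        have h1 := k.injective (g.injective (Subtype.ext h))
        omega
    have hm : Monotone fun n => a (g (k n)).1 := fun m n h => haa (hk'.monotone h)
    have hC := closed_iUnion hm fun n => ha _
    obtain ⟨n, hn⟩ := mem_iUnion.1 (S.named _ hC p)
    have h2 := hab (hk' (Nat.lt_succ_self n)) hn
    refine (g (k (n + 1))).2 ?_
    rw [S.persist hC (ha _) (subset_iUnion (fun n => a (g (k n)).1) (n + 1)) (hba _ h2)]
    exact h2
  let cut : ι → Set P × Set P → Set P × Set P := fun i C => (C.1 ∩ nw i, C.2 ∩ nw i)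
  refine ⟨F0 ∪ ⋃ i, cut i '' F i, ?_, fun x y hxy => ?_, fun x => ?_⟩
  · rintro C (hC | hC) x hx y hy
    · exact h01 C hC x hx y hy
    · obtain ⟨i, C', hC', rfl⟩ := mem_iUnion.1 hC
      exact hF1 i C' hC' x hx.1 y hy.1
  · have hne : {i | Rel N (S.w (a i) x) (S.w (a i) y)}.Nonempty := by
      obtain ⟨i, hi⟩ : S.nm (S.w A x) ∈ range e := he ▸ S.named A hA x
      obtain ⟨j, hj⟩ : S.nm (S.w A y) ∈ range e := he ▸ S.named A hA y
      refine ⟨max i j, ?_⟩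
      change Rel N (S.w (a (max i j)) x) (S.w (a (max i j)) y)
      rw [S.persist hA (ha _) (haA _) (subset_cl _ ⟨i, le_max_left i j, hi⟩),
        S.persist hA (ha _) (haA _) (subset_cl _ ⟨j, le_max_right i j, hj⟩)]
      exact hxy
    obtain ⟨i, hi, hmin⟩ := (wellFounded_lt (α := ι)).has_min _ hne
    by_cases hn : x ∈ nw i ∧ y ∈ nw i
    · obtain ⟨C, hC, hx, hy⟩ := hF2 i x y hi
      exact ⟨cut i C, Or.inr (mem_iUnion.2 ⟨i, C, hC, rfl⟩), ⟨hx, hn.1⟩, ⟨hy, hn.2⟩⟩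
    have hrb : Rel N (S.w (b i) x) (S.w (b i) y) := by
      by_cases hy : y ∈ nw i
      · have hx : S.nm (S.w (a i) x) ∈ b i := by
          by_contra h
          exact hn ⟨h, hy⟩
        exact (S.descent (ha i) (hb i) (hba i) (Rel.symm hs hi) hx).symm hs
      · exact S.descent (ha i) (hb i) (hba i) hi (not_not.1 hy)
    rcases hbelow i _ (S.named _ (hb i) x) _ (S.named _ (hb i) y) with h | ⟨j, hj, h⟩
    · rw [← S.persist (hb i) h0 (h0b i) h.1, ← S.persist (hb i) h0 (h0b i) h.2] at hrb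
      obtain ⟨C, hC, h1⟩ := h02 x y hrb
      exact ⟨C, Or.inl hC, h1⟩
    · rw [← S.persist (hb i) (ha j) (hab hj) h.1, ← S.persist (hb i) (ha j) (hab hj) h.2] at hrb
      exact (hmin j hrb hj).elim
  · refine ((h03 x).union ((hfin x).biUnion fun i _ => (hF3 i x).image (cut i))).subset ?_
    rintro C ⟨hC | hC, hx⟩
    · exact Or.inl ⟨hC, hx⟩
    · obtain ⟨i, C', hC', rfl⟩ := mem_iUnion.1 hC
      rcases hx with hx | hx
      · exact Or.inr (mem_biUnion hx.2 ⟨C', ⟨hC', Or.inl hx.1⟩, rfl⟩)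
      · exact Or.inr (mem_biUnion hx.2 ⟨C', ⟨hC', Or.inr hx.1⟩, rfl⟩)

theorem cover_of_univ (hs : ∀ p q, q ∈ N p → p ∈ N q) (h : S.CovOn univ) : Cover N := by
  obtain ⟨𝓕, h1, h2, h3⟩ := h
  refine ⟨𝓕, h1, fun x y hxy => h2 x y fun x' y' hx hy => ?_, h3⟩
  have h4 : y ∈ N x' := hx (S.sup _ closed_univ x ⟨hxy, mem_univ _⟩)
  exact hs _ _ (hy (S.sup _ closed_univ y ⟨hs _ _ h4, mem_univ _⟩))

/-- Induction on the size of a closed set, down to a base size. -/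
theorem covOn_of_base (hs : ∀ p q, q ∈ N p → p ∈ N q) {μ : Cardinal.{u}} (hμ : ℵ₀ ≤ μ)
    (hG : ∀ s, #(S.G s) ≤ μ) (base : ∀ A, Closed S.G A → #A ≤ μ → S.CovOn A)
    {A : Set P} (hA : Closed S.G A) : S.CovOn A := by
  have main : ∀ κ : Cardinal.{u}, ∀ A : Set P, Closed S.G A → #A = κ → S.CovOn A := by
    intro κ
    induction κ using WellFoundedLT.induction with
    | ind κ ih =>
      intro A hA hκ
      rcases le_or_gt #A μ with h | h
      · exact base A hA h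
      · obtain ⟨ι, _, _, e, he, -, hsm⟩ := exists_filtration A (hμ.trans_lt h)
        refine S.covOn_step hs hA e he (fun i => ih _ (hκ ▸ ?_) _ (closed_cl _) rfl)
          (base _ (closed_cl _) (mk_cl_le' hG hμ (by simp)))
        exact (mk_cl_le' (fun s => (hG s).trans (le_max_right _ _)) (hμ.trans (le_max_right _ _))
          (mk_image_le.trans (le_max_left _ _))).trans_lt (max_lt (hsm i) h)
  exact main _ A hA rfl

end Sys

end Pool.Agent.Lib.MP_71509e_al.OB
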