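import Mathlib
import Pool.Agent.Lib.MP_71509e_al.OB.Sys
import Pool.Agent.Lib.MP_71509e_al.OB.Reg

set_option autoImplicit false

namespace Pool.Agent.Lib.MP_71509e_al.OB

open Cardinal Set

universe u

variable {P : Type u} {N : P → Set P}

theorem cover_of_countable [Countable P] : Cover N := by
  obtain ⟨f, hf⟩ := exists_injective_nat P
  let c1 : P → Set P × Set P := fun p => ({p}, {q | q ∈ N p ∧ f p ≤ f q})
  let c2 : P → Set P × Set P := fun q => ({p | q ∈ N p ∧ f q ≤ f p}, {q})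
  refine ⟨range c1 ∪ range c2, ?_, fun x y hxy => ?_, fun x => ?_⟩
  · rintro _ (⟨k, rfl⟩ | ⟨k, rfl⟩) x hx y hy
    · exact (mem_singleton_iff.1 hx) ▸ hy.1
    · exact (mem_singleton_iff.1 hy) ▸ hx.1
  · rcases le_total (f x) (f y) with h | h
    · exact ⟨c1 x, Or.inl (mem_range_self _), rfl, hxy, h⟩
    · exact ⟨c2 y, Or.inr (mem_range_self _), ⟨hxy, h⟩, rfl⟩
  · have h : (f ⁻¹' Iic (f x)).Finite := (finite_Iic _).preimage hf.injOn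
    refine ((h.image c1).union (h.image c2)).subset ?_
    rintro _ ⟨⟨k, rfl⟩ | ⟨k, rfl⟩, h | h⟩
    · exact Or.inl ⟨k, le_of_eq (congrArg f (mem_singleton_iff.1 h).symm), rfl⟩
    · exact Or.inl ⟨k, h.2, rfl⟩
    · exact Or.inr ⟨k, h.2, rfl⟩
    · exact Or.inr ⟨k, le_of_eq (congrArg f (mem_singleton_iff.1 h).symm), rfl⟩

theorem cover_regular (hs : ∀ p q, q ∈ N p → p ∈ N q) (hi : ∀ p, p ∉ N p)
    (hB : ∀ W : Set P, ∃ W0 ⊆ W, W0.Countable ∧ ∀ p, W0 ⊆ N p → W ⊆ N p) (hL : NoList N)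
    (hκ : (#P).IsRegular) (hκ' : ℵ₀ < #P)
    (ih : ∀ (T : Type u) (f : T → P), #T < #P → Cover fun t => f ⁻¹' N (f t)) : Cover N := by
  have : Nonempty P := mk_ne_zero_iff.1 hκ.pos.ne'
  obtain ⟨e⟩ := Cardinal.eq.1 (mk_ord_toType #P)
  let Q : (#P).ord.ToType → Set P := fun δ => e '' Iio δ
  have hQ : ∀ δ, #(Q δ) < #P := fun δ => mk_image_le.trans_lt (mk_Iio_idx δ)
  have hQm : Monotone Q := fun _ _ h => image_mono (Iio_subset_Iio h)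
  have hin : ∀ {T : Set (#P).ord.ToType}, IsCofinal T → ∀ D : Set P, #D < #P →
      ∃ δ ∈ T, D ⊆ Q δ := by
    intro T hT D hD
    obtain ⟨δ, hδ, h⟩ := exists_gt_of_cofinal hκ hT (s := e.symm '' D) (mk_image_le.trans_lt hD)
    exact ⟨δ, hδ, fun y hy => ⟨e.symm y, h _ (mem_image_of_mem _ hy), e.apply_symm_apply y⟩⟩
  have hcnt : ∀ {D : Set P}, D.Countable → #D < #P := fun h =>
    (le_aleph0_iff_set_countable.2 h).trans_lt hκ'
  have hX : #(LimLt N #P) ≤ max #(univ : Set P) ℵ₀ := by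
    rw [mk_univ]
    refine le_trans ?_ (le_max_left _ _)
    let L : (#P).ord.ToType → Set (Set P) :=
      fun δ => {W ∈ LimLt N #P | ∀ p, W ∩ Q δ ⊆ N p → W ⊆ N p}
    have hL' : LimLt N #P ⊆ ⋃ δ, L δ := by
      intro W hW
      obtain ⟨W0, h1, h2, h3⟩ := hB W
      obtain ⟨δ, -, hδ⟩ := hin IsCofinal.univ W0 (hcnt h2)
      exact mem_iUnion.2 ⟨δ, hW, fun p hp => h3 p ((subset_inter h1 hδ).trans hp)⟩
    have inj : ∀ δ, ∀ W ∈ L δ, ∀ W' ∈ L δ, W ∩ Q δ = W' ∩ Q δ → W ⊆ W' := by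
      intro δ W hW W' hW' h y hy
      obtain ⟨p, h1, h2⟩ := hW'.1 {y} (hcnt (countable_singleton y))
      exact h2 ⟨hW.2 p (h ▸ inter_subset_left.trans h1) hy, rfl⟩
    refine (mk_le_mk_of_subset hL').trans ((mk_iUnion_le _).trans
      (mul_le_of_le hκ.1 (mk_ord_toType _).le (ciSup_le' fun δ => ?_)))
    refine le_trans (mk_le_of_injOn (fun W => W ∩ Q δ) (fun W hW => ?_) fun W hW W' hW' h => ?_)
      ((hL.mk_tr_le (Q δ)).trans (max_le (hQ δ).le hκ.1))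
    · obtain ⟨p, h1, h2⟩ := hW.1 (Q δ) (hQ δ)
      exact ⟨p, Subset.antisymm (subset_inter h2 inter_subset_right)
        (inter_subset_inter_left _ h1)⟩
    · exact Subset.antisymm (inj δ W hW W' hW' h) (inj δ W' hW' W hW h.symm)
  obtain ⟨nm, -, hnm⟩ := exists_naming (LimLt N #P) univ univ_nonempty hX
  have hns : ¬ IsStationary
      {δ | ∃ p, ¬ ∃ W ∈ LimLt N #P, nm W ∈ Q δ ∧ W ⊆ N p ∧ N p ∩ Q δ ⊆ W} := by
    intro hS
    have h1 : ∀ δ, ∃ p, (∃ p, ¬ ∃ W ∈ LimLt N #P, nm W ∈ Q δ ∧ W ⊆ N p ∧ N p ∩ Q δ ⊆ W) →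
        ¬ ∃ W ∈ LimLt N #P, nm W ∈ Q δ ∧ W ⊆ N p ∧ N p ∩ Q δ ⊆ W := by
      intro δ
      by_cases h : ∃ p, ¬ ∃ W ∈ LimLt N #P, nm W ∈ Q δ ∧ W ⊆ N p ∧ N p ∩ Q δ ⊆ W
      · obtain ⟨p, hp⟩ := h
        exact ⟨p, fun _ => hp⟩
      · exact ⟨nm ∅, fun h' => (h h').elim⟩
    choose p hp using h1
    obtain ⟨V, hV⟩ := hL _ hκ hκ' e p _ hS
    obtain ⟨W0, h1, h2, h3⟩ := hB (e '' V)
    have h4 : ∀ D : Set P, #D < #P → ∃ δ, (∃ p, ¬ ∃ W ∈ LimLt N #P,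
        nm W ∈ Q δ ∧ W ⊆ N p ∧ N p ∩ Q δ ⊆ W) ∧ D ⊆ Q δ ∧ e '' V ⊆ N (p δ) ∧
        N (p δ) ∩ Q δ ⊆ e '' V := by
      intro D hD
      obtain ⟨δ, hδ, h5⟩ := hin hV (D ∪ W0)
        ((mk_union_le _ _).trans_lt (add_lt_of_lt hκ.1 hD (hcnt h2)))
      refine ⟨δ, hδ.1, subset_union_left.trans h5, h3 _ fun y hy => ?_, ?_⟩
      · obtain ⟨ξ, hξ, rfl⟩ := h5 (Or.inr hy)
        exact (hδ.2 ξ hξ).2 ((e.injective.mem_set_image).1 (h1 hy))
      · rintro _ ⟨hy, ξ, hξ, rfl⟩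
        exact mem_image_of_mem _ ((hδ.2 ξ hξ).1 hy)
    have hW : e '' V ∈ LimLt N #P := by
      intro D hD
      obtain ⟨δ, -, h5, h6, h7⟩ := h4 D hD
      exact ⟨p δ, h6, (inter_subset_inter_right _ h5).trans h7⟩
    obtain ⟨δ, h5, h6, h7⟩ := h4 {nm (e '' V)} (hcnt (countable_singleton _))
    exact hp δ h5 ⟨_, hW, h6 rfl, h7⟩
  obtain ⟨C, hC, hdis⟩ := not_isStationary_iff.1 hns
  choose d hdC hd using fun s : Finset P => hin hC.isCofinal s (hcnt s.countable_toSet)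
  have hgood : ∀ A, Closed (fun s => Q (d s)) A →
      ∀ p, ∃ W ∈ LimLt N #P, nm W ∈ A ∧ W ⊆ N p ∧ N p ∩ A ⊆ W := by
    intro A hA p
    let J : Set (#P).ord.ToType := d '' {s | (s : Set P) ⊆ A}
    have hJ : ∀ ξ, ∀ j ∈ J, ξ < j → e ξ ∈ A := by
      rintro ξ _ ⟨s, hs', rfl⟩ h
      exact hA s hs' ⟨ξ, h, rfl⟩
    by_cases hb : BddAbove J
    · obtain ⟨δ, h1, h2⟩ := (wellFounded_lt (α := (#P).ord.ToType)).has_min _ hb
      have hl : IsLUB J δ := ⟨h1, fun x hx => not_lt.1 (h2 x hx)⟩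
      have h3 : δ ∈ C := hC.isLUB_mem (by rintro _ ⟨s, -, rfl⟩; exact hdC s)
        ⟨d ∅, mem_image_of_mem d (by simp)⟩ hl
      have h4 : A = Q δ := by
        apply Subset.antisymm
        · intro a ha
          exact hQm (h1 ⟨{a}, by simpa using ha, rfl⟩) (hd {a} (by simp))
        · rintro _ ⟨ξ, hξ, rfl⟩
          obtain ⟨j, hj, h5⟩ := (lt_isLUB_iff hl).1 hξ
          exact hJ ξ j hj h5
      by_contra h5
      exact disjoint_left.1 hdis ⟨p, h4 ▸ h5⟩ h3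
    · refine ⟨N p, fun D _ => ⟨p, Subset.rfl, inter_subset_left⟩, ?_, Subset.rfl,
        inter_subset_left⟩
      obtain ⟨j, hj, h1⟩ := not_bddAbove_iff.1 hb (e.symm (nm (N p)))
      simpa using hJ _ j hj h1
  obtain ⟨S, hSX, D, hD, hSG⟩ := exists_sys_of_good hnm hgood
  have hG : ∀ s, #(S.G s) < #P := fun s => by
    rw [hSG]
    exact (mk_union_le _ _).trans_lt (add_lt_of_lt hκ.1 (hQ _) (hcnt (hD s)))
  have small : ∀ B : Set P, #B < #P → S.CovOn (cl S.G B) := fun B h =>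
    S.covOn_small hs hi hκ' hSX.le ih (closed_cl B) (mk_cl_lt hκ hκ' hG h)
  exact S.cover_of_univ hs (S.covOn_step hs closed_univ e e.range_eq_univ
    (fun i => small _ (mk_image_le.trans_lt (mk_Iic_idx hκ.1 i))) (small _ (hcnt countable_empty)))

theorem cover_singular (hs : ∀ p q, q ∈ N p → p ∈ N q) (hi : ∀ p, p ∉ N p) (hL : NoList N)
    (hκ : ¬ (#P).IsRegular) (hκ' : ℵ₀ < #P)
    (ih : ∀ (T : Type u) (f : T → P), #T < #P → Cover fun t => f ⁻¹' N (f t)) : Cover N := by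
  have : Nonempty P := mk_ne_zero_iff.1 (aleph0_pos.trans hκ').ne'
  obtain ⟨J, R, hJ, hR, hcov⟩ : ∃ (J : Type u) (R : J → Set P), #J < #P ∧ (∀ i, #(R i) < #P) ∧
      ∀ p, ∃ i, p ∈ R i := by
    obtain ⟨e⟩ := Cardinal.eq.1 (mk_ord_toType #P)
    obtain ⟨s, h1, h2⟩ := Order.exists_cof_eq (#P).ord.ToType
    refine ⟨s, fun i => e '' Iic i.1, ?_, fun i => mk_image_le.trans_lt (mk_Iic_idx hκ'.le i.1),
      fun p => ?_⟩
    · rw [h2, Ordinal.cof_toType]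
      exact not_le.1 fun h => hκ ⟨hκ'.le, h⟩
    · obtain ⟨i, hi, h3⟩ := h1 (e.symm p)
      exact ⟨⟨i, hi⟩, _, h3, e.apply_symm_apply p⟩
  have hμ : ℵ₀ ≤ max #J ℵ₀ := le_max_right _ _
  have hJμ : #J ≤ max #J ℵ₀ := le_max_left _ _
  have hμP : max #J ℵ₀ < #P := max_lt hJ hκ'
  generalize max #J ℵ₀ = μ at hμ hJμ hμP
  choose r hr using fun i => exists_rep N (R i)
  let T : J → Set P := fun i => R i ∪ r i '' Tr N (R i)
  have hT : ∀ i, #(T i) < #P := fun i => (mk_union_le _ _).trans_lt (add_lt_of_lt hκ'.le (hR i)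
    ((mk_image_le.trans (hL.mk_tr_le _)).trans_lt (max_lt (hR i) hκ')))
  choose F hF1 hF2 hF3 using fun i => ih (T i) Subtype.val (hT i)
  let v : ∀ i, P → T i := fun i y => ⟨r i (N y ∩ R i), Or.inr ⟨_, ⟨y, rfl⟩, rfl⟩⟩
  have hv : ∀ i, ∀ p ∈ R i, ∀ y, (v i y).1 ∈ N p ↔ y ∈ N p := by
    intro i p hp y
    have h1 : N (v i y).1 ∩ R i = N y ∩ R i := hr i _ ⟨y, rfl⟩
    exact ⟨fun h => hs _ _ (h1 ▸ (⟨hs _ _ h, hp⟩ : p ∈ N (v i y).1 ∩ R i) : p ∈ N y ∩ R i).1,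
      fun h => hs _ _ (h1.symm ▸ (⟨hs _ _ h, hp⟩ : p ∈ N y ∩ R i) : p ∈ N (v i y).1 ∩ R i).1⟩
  let V : ∀ i, Set (Set (T i) × Set (T i)) → Set P := fun i 𝒯 => {y | ∃ C ∈ 𝒯, v i y ∈ C.2}
  let H : ∀ i, Finset P → Set (Set (T i) × Set (T i)) :=
    fun i s => {C ∈ F i | ∃ y ∈ s, v i y ∈ C.2}
  have hH : ∀ i s, (H i s).Finite := by
    intro i s
    refine (s.finite_toSet.biUnion fun y _ => hF3 i (v i y)).subset ?_
    rintro C ⟨hC, y, hy, hyC⟩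
    exact mem_biUnion (Finset.mem_coe.2 hy) ⟨hC, Or.inr hyC⟩
  let K : Finset P → Set (Set P) := fun s => ⋃ i, V i '' 𝒫 (H i s)
  have hK : ∀ s, #(K s) ≤ μ := fun s => (mk_iUnion_le _).trans (mul_le_of_le hμ hJμ
    (ciSup_le' fun i => (le_aleph0_iff_set_countable.2
      (((hH i s).finite_subsets.image _).countable)).trans hμ))
  have hinf : Infinite P := infinite_iff.2 hκ'.le
  obtain ⟨nm, -, hnm⟩ := exists_naming (⋃ s, K s) univ univ_nonempty (by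
    rw [mk_univ]
    exact ((mk_iUnion_le _).trans (mul_le_of_le hκ'.le (mk_finset_of_infinite P).le
      (ciSup_le' fun s => (hK s).trans hμP.le))).trans (le_max_left _ _))
  have hwit : ∀ W : Set P, ∃ D : Set P, #D ≤ μ ∧
      ((∃ p, W ⊆ N p ∧ N p ∩ D ⊆ W) → W ∈ LimLt N (Order.succ μ)) := by
    intro W
    by_cases h : W ∈ LimLt N (Order.succ μ)
    · exact ⟨∅, by simp, fun _ => h⟩
    · by_contra h1
      refine h fun D hD => ?_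
      by_contra h2
      exact h1 ⟨D, Order.lt_succ_iff.1 hD, fun h3 => (h2 h3).elim⟩
  choose wit hw hw' using hwit
  obtain ⟨E, hE, hE'⟩ := exists_witness_op' hnm (fun W _ => wit W) hμ fun W _ => hw W
  have hgood : ∀ A, Closed (fun s => nm '' K s ∪ E s) A → ∀ p,
      ∃ W ∈ (⋃ s, K s) ∩ LimLt N (Order.succ μ), nm W ∈ A ∧ W ⊆ N p ∧ N p ∩ A ⊆ W := by
    intro A hA p
    obtain ⟨hA1, hA2⟩ := closed_union.1 hA
    obtain ⟨i, hp⟩ := hcov p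
    let 𝒯 : Set (Set (T i) × Set (T i)) :=
      {C ∈ F i | (⟨p, Or.inl hp⟩ : T i) ∈ C.1 ∧ ∃ y ∈ A, v i y ∈ C.2}
    have hfin : 𝒯.Finite := (hF3 i ⟨p, Or.inl hp⟩).subset fun C hC => ⟨hC.1, Or.inl hC.2.1⟩
    have hch : ∀ C : 𝒯, ∃ y ∈ A, v i y ∈ C.1.2 := fun C => C.2.2.2
    choose y hy hy' using hch
    have := hfin.to_subtype
    have h1 : V i 𝒯 ∈ K (finite_range y).toFinset := mem_iUnion.2 ⟨i, 𝒯, fun C hC =>
      ⟨hC.1, y ⟨C, hC⟩, (Finite.mem_toFinset _).2 (mem_range_self _), hy' ⟨C, hC⟩⟩, rfl⟩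
    have h2 : nm (V i 𝒯) ∈ A := hA1 _ (by
      rw [Finite.coe_toFinset]
      exact range_subset_iff.2 hy) (mem_image_of_mem nm h1)
    have h3 : V i 𝒯 ⊆ N p := fun z ⟨C, hC, hz⟩ => (hv i p hp z).1 (hF1 i C hC.1 _ hC.2.1 _ hz)
    have h4 : N p ∩ A ⊆ V i 𝒯 := by
      intro z hz
      obtain ⟨C, hC, h5, h6⟩ := hF2 i ⟨p, Or.inl hp⟩ (v i z) ((hv i p hp z).2 hz.1)
      exact ⟨C, ⟨hC, h5, z, hz.2, h6⟩, h6⟩
    have h5 : V i 𝒯 ∈ ⋃ s, K s := mem_iUnion.2 ⟨_, h1⟩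
    exact ⟨_, ⟨h5, hw' _ ⟨p, h3, (inter_subset_inter_right _
      ((hE' A).1 hA2 _ h5 _ h5 h2 h2)).trans h4⟩⟩, h2, h3, h4⟩
  obtain ⟨S, hSX, D, hD, hSG⟩ := exists_sys_of_good
    (fun a => (hnm a).mono fun W hW => And.intro hW.1.1 hW.2) hgood
  have hG : ∀ s, #(S.G s) ≤ μ := fun s => by
    rw [hSG]
    exact (mk_union_le _ _).trans (add_le_of_le hμ ((mk_union_le _ _).trans
      (add_le_of_le hμ (mk_image_le.trans (hK s)) (hE s)))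
      ((le_aleph0_iff_set_countable.2 (hD s)).trans hμ))
  refine S.cover_of_univ hs (S.covOn_of_base hs hμ hG (fun A hA hc => ?_) closed_univ)
  exact S.covOn_small hs hi (hμ.trans_lt (Order.lt_succ μ)) (hSX ▸ inter_subset_right)
    (fun T f h => ih T f (h.trans_le (Order.succ_le_of_lt hμP))) hA (Order.lt_succ_iff.2 hc)

end Pool.Agent.Lib.MP_71509e_al.OB
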