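import Mathlib
import Pool.Agent.Lib.MP_71509e_al.OB.Basic

set_option autoImplicit false

namespace Pool.Agent.Lib.MP_71509e_al.OB

open Cardinal Set

universe u v

variable {P : Type u}

/-- Pressing down on families of countable sets. -/
theorem fodor {T : Type v} {𝒮 : Set (Set P)} (h : KStat 𝒮) (K : Finset P → Set T)
    (hK : ∀ s, (K s).Countable) (g : Set P → T)
    (hg : ∀ A ∈ 𝒮, ∃ s : Finset P, (s : Set P) ⊆ A ∧ g A ∈ K s) :
    ∃ t, KStat {A ∈ 𝒮 | g A = t} := by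
  classical
  by_contra hcon
  have h1 : ∀ t, ∃ G : Finset P → Set P, (∀ s, (G s).Countable) ∧
      ∀ A ∈ 𝒮, g A = t → ¬ Closed G A := by
    intro t
    by_contra h2
    refine hcon ⟨t, fun G hG => ?_⟩
    by_contra h3
    exact h2 ⟨G, hG, fun A hA hAt hc => h3 ⟨A, ⟨hA, hAt⟩, hc⟩⟩
  choose F hF hF' using h1
  obtain ⟨A, hA, hc⟩ := h
    (fun s => ⋃ s1 ∈ s.powerset, ⋃ s2 ∈ s.powerset, ⋃ t ∈ K s1, F t s2) (fun s =>
      (s.powerset.countable_toSet).biUnion fun s1 _ =>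
        (s.powerset.countable_toSet).biUnion fun s2 _ => (hK s1).biUnion fun t _ => hF t s2)
  obtain ⟨s1, hs1, hg1⟩ := hg A hA
  refine hF' (g A) A hA rfl fun s2 hs2 x hx => ?_
  refine hc (s1 ∪ s2) (by rw [Finset.coe_union]; exact union_subset hs1 hs2) ?_
  simp only [mem_iUnion]
  exact ⟨s1, Finset.mem_powerset.2 Finset.subset_union_left, s2,
    Finset.mem_powerset.2 Finset.subset_union_right, g A, hg1, hx⟩

/-- A point-finite cover gives the pressing-down property, with a stationary subfamily. -/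
theorem press_of_cover {N : P → Set P} (h : Cover N) (𝒮 : Set (Set P)) (hS : KStat 𝒮)
    (p : Set P → P) :
    ∃ 𝒯 ⊆ 𝒮, KStat 𝒯 ∧ ∀ A ∈ 𝒯, ∀ B ∈ 𝒯, N (p A) ∩ A ⊆ N (p B) := by
  classical
  obtain ⟨𝓕, h1, h2, h3⟩ := h
  let g : Set P → Set (Set P × Set P) := fun A => {C ∈ 𝓕 | p A ∈ C.1 ∧ (C.2 ∩ A).Nonempty}
  let H : Finset P → Set (Set P × Set P) := fun s => {C ∈ 𝓕 | (C.2 ∩ s).Nonempty}
  have hH : ∀ s, (H s).Finite := by
    intro s
    refine (s.finite_toSet.biUnion fun y _ => h3 y).subset ?_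
    rintro C ⟨hC, y, hy, hys⟩
    exact mem_biUnion hys ⟨hC, Or.inr hy⟩
  obtain ⟨t, ht⟩ := fodor hS (fun s => 𝒫 (H s)) (fun s => (hH s).finite_subsets.countable) g (by
    intro A _
    have hfin : (g A).Finite := (h3 (p A)).subset fun C hC => ⟨hC.1, Or.inl hC.2.1⟩
    have hch : ∀ C : g A, ∃ y, y ∈ C.1.2 ∩ A := fun C => C.2.2.2
    choose y hy using hch
    have := hfin.to_subtype
    refine ⟨(finite_range y).toFinset, ?_, ?_⟩
    · rw [Finite.coe_toFinset]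
      rintro _ ⟨C, rfl⟩
      exact (hy C).2
    · intro C hC
      refine ⟨hC.1, y ⟨C, hC⟩, (hy ⟨C, hC⟩).1, ?_⟩
      rw [Finite.coe_toFinset]
      exact mem_range_self _)
  refine ⟨_, sep_subset _ _, ht, ?_⟩
  rintro A ⟨_, hA⟩ B ⟨_, hB⟩ y ⟨hy, hyA⟩
  obtain ⟨C, hC, hp, hyC⟩ := h2 _ _ hy
  have hCA : C ∈ g A := ⟨hC, hp, y, hyC, hyA⟩
  rw [hA, ← hB] at hCA
  exact h1 C hC _ hCA.2.1 y hyC

theorem Cover.press {N : P → Set P} (h : Cover N) : Press N := by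
  intro 𝒮 _ hS p
  obtain ⟨𝒯, h1, h2, h3⟩ := press_of_cover h 𝒮 hS p
  exact ⟨𝒯, h1, h2.cof, h3⟩

/-- Every set has a countable subset lying in the same neighbourhoods. -/
theorem small_base {N : P → Set P} (hN : Press N) (W : Set P) :
    ∃ W0 ⊆ W, W0.Countable ∧ ∀ p, W0 ⊆ N p → W ⊆ N p := by
  by_contra hcon
  have h1 : ∀ A : Set P, ∃ p y, A.Countable → W ∩ A ⊆ N p ∧ y ∈ W ∧ y ∉ N p := by
    have h2 : ∀ A : Set P, A.Countable → ∃ p y, W ∩ A ⊆ N p ∧ y ∈ W ∧ y ∉ N p := by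
      intro A hA
      by_contra h3
      refine hcon ⟨W ∩ A, inter_subset_left, hA.mono inter_subset_right, fun p hp y hy => ?_⟩
      by_contra h4
      exact h3 ⟨p, y, hp, hy, h4⟩
    intro A
    by_cases hA : A.Countable
    · obtain ⟨p, y, h⟩ := h2 A hA
      exact ⟨p, y, fun _ => h⟩
    · obtain ⟨p, y, _⟩ := h2 ∅ countable_empty
      exact ⟨p, y, fun h => (hA h).elim⟩
  choose p y h using h1
  obtain ⟨𝒯, hT, hcof, hco⟩ := hN _ (fun _ hA => hA) kstat_countable p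
  obtain ⟨A, hA, -⟩ := hcof ∅ countable_empty
  obtain ⟨B, hB, hyB⟩ := hcof {y A} (countable_singleton _)
  have hy : y A ∈ B := hyB rfl
  exact (h A (hT hA)).2.2 (hco B hB A hA ⟨(h B (hT hB)).1 ⟨(h A (hT hA)).2.1, hy⟩, hy⟩)

end Pool.Agent.Lib.MP_71509e_al.OB
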