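import Mathlib
import Pool.Agent.Lib.MP_71509e_al.OB.Defs
import Pool.Agent.Lib.MP_71509e_al.OB.Nec
import Pool.Agent.Lib.MP_71509e_al.OB.Ind

set_option autoImplicit false

namespace Pool.Agent.Lib.MP_71509e_al.OB

open Cardinal Set

universe u

variable {P : Type u}

theorem mk_omega_one : #(Ordinal.omega.{0} 1).ToType = ℵ₁ := by simp

theorem countable_Iio_omega_one (i : (Ordinal.omega.{0} 1).ToType) : (Iio i).Countable := by
  have h1 : #(Iio i) < #(Ordinal.omega.{0} 1).ToType := mk_Iio_lt i (by simp)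
  rw [mk_omega_one, ← succ_aleph0, Order.lt_succ_iff] at h1
  exact le_aleph0_iff_set_countable.1 h1

theorem exists_bound_omega_one {s : Set (Ordinal.omega.{0} 1).ToType} (hs : s.Countable) :
    ∃ j, ∀ i ∈ s, i < j := by
  by_contra hcon
  have h1 : (univ : Set (Ordinal.omega.{0} 1).ToType) ⊆ ⋃ i ∈ s, insert i (Iio i) := by
    intro j _
    by_contra h2
    refine hcon ⟨j, fun i hi => ?_⟩
    by_contra h3
    refine h2 (mem_biUnion hi ?_)
    rw [Iio_insert]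
    exact not_lt.1 h3
  have h2 := le_aleph0_iff_set_countable.2
    ((hs.biUnion fun i _ => (countable_Iio_omega_one i).insert i).mono h1)
  rw [mk_univ, mk_omega_one] at h2
  exact absurd aleph0_lt_aleph_one (not_lt.2 h2)

theorem no_crown_of_base {N : P → Set P}
    (h : ∀ W : Set P, ∃ W0 ⊆ W, W0.Countable ∧ ∀ p, W0 ⊆ N p → W ⊆ N p) :
    ¬ ∃ a b : (Ordinal.omega.{0} 1).ToType → P,
      (∀ i, b i ∉ N (a i)) ∧ ∀ i j, i < j → b i ∈ N (a j) := by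
  rintro ⟨a, b, h1, h2⟩
  obtain ⟨W0, h3, h4, h5⟩ := h (range b)
  obtain ⟨s, hs, hs'⟩ : ∃ s : Set (Ordinal.omega.{0} 1).ToType, s.Countable ∧ W0 ⊆ b '' s := by
    have h6 : ∀ y : W0, ∃ i, b i = y := fun y => h3 y.2
    choose f hf using h6
    have := h4.to_subtype
    exact ⟨range f, countable_range f, fun y hy => ⟨f ⟨y, hy⟩, mem_range_self _, hf _⟩⟩
  obtain ⟨j, hj⟩ := exists_bound_omega_one hs
  refine h1 j (h5 (a j) (hs'.trans ?_) (mem_range_self j))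
  rintro _ ⟨i, hi, rfl⟩
  exact h2 i j (hj i hi)

theorem base_of_no_crown {N : P → Set P}
    (h : ¬ ∃ a b : (Ordinal.omega.{0} 1).ToType → P,
      (∀ i, b i ∉ N (a i)) ∧ ∀ i j, i < j → b i ∈ N (a j)) (W : Set P) :
    ∃ W0 ⊆ W, W0.Countable ∧ ∀ p, W0 ⊆ N p → W ⊆ N p := by
  by_contra hcon
  have h2 : ∀ A : Set P, A.Countable → ∃ z : P × P, W ∩ A ⊆ N z.1 ∧ z.2 ∈ W ∧ z.2 ∉ N z.1 := by
    intro A hA
    by_contra h3
    refine hcon ⟨W ∩ A, inter_subset_left, hA.mono inter_subset_right, fun p hp y hy => ?_⟩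
    by_contra h4
    exact h3 ⟨(p, y), hp, hy, h4⟩
  have h1 : ∀ A : Set P, ∃ z : P × P, A.Countable → W ∩ A ⊆ N z.1 ∧ z.2 ∈ W ∧ z.2 ∉ N z.1 := by
    intro A
    by_cases hA : A.Countable
    · obtain ⟨z, hz⟩ := h2 A hA
      exact ⟨z, fun _ => hz⟩
    · obtain ⟨z, -⟩ := h2 ∅ countable_empty
      exact ⟨z, fun h => (hA h).elim⟩
  choose z hz using h1
  let f : (Ordinal.omega.{0} 1).ToType → P × P := (wellFounded_lt).fix
    fun i g => z (range fun j : Iio i => (g j.1 j.2).2)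
  have hf : ∀ i, f i = z (range fun j : Iio i => (f j.1).2) := fun i =>
    WellFounded.fix_eq _ _ i
  have hs : ∀ i, W ∩ (range fun j : Iio i => (f j.1).2) ⊆ N (f i).1 ∧ (f i).2 ∈ W ∧
      (f i).2 ∉ N (f i).1 := by
    intro i
    have := (countable_Iio_omega_one i).to_subtype
    rw [hf i]
    exact hz _ (countable_range _)
  exact h ⟨fun i => (f i).1, fun i => (f i).2, fun i => (hs i).2.2,
    fun i j hij => (hs j).1 ⟨(hs i).2.1, ⟨i, hij⟩, rfl⟩⟩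

/-- The two obstructions are the only ones. -/
theorem cover_of_no_obstruction {N : P → Set P} (hs : ∀ p q, q ∈ N p → p ∈ N q)
    (hi : ∀ p, p ∉ N p)
    (hC : ¬ ∃ a b : (Ordinal.omega.{0} 1).ToType → P,
      (∀ i, b i ∉ N (a i)) ∧ ∀ i j, i < j → b i ∈ N (a j)) (hL : NoList N) : Cover N := by
  have main : ∀ κ : Cardinal.{u}, ∀ (P : Type u) (N : P → Set P), #P = κ →
      (∀ p q, q ∈ N p → p ∈ N q) → (∀ p, p ∉ N p) →
      (¬ ∃ a b : (Ordinal.omega.{0} 1).ToType → P,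
        (∀ i, b i ∉ N (a i)) ∧ ∀ i j, i < j → b i ∈ N (a j)) → NoList N → Cover N := by
    intro κ
    induction κ using WellFoundedLT.induction with
    | ind κ ih =>
      intro P N hκ hs hi hC hL
      have ih' : ∀ (T : Type u) (f : T → P), #T < #P → Cover fun t => f ⁻¹' N (f t) :=
        fun T f h => ih _ (hκ ▸ h) T _ rfl (fun p q h => hs _ _ h) (fun p => hi (f p))
          (fun ⟨a, b, h⟩ => hC ⟨f ∘ a, f ∘ b, h⟩) (hL.pullback f)
      rcases le_or_gt #P ℵ₀ with h | h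
      · have := mk_le_aleph0_iff.1 h
        exact cover_of_countable
      · by_cases hr : (#P).IsRegular
        · exact cover_regular hs hi (base_of_no_crown hC) hL hr h ih'
        · exact cover_singular hs hi hL hr h ih'
  exact main _ P N rfl hs hi hC hL

variable [PartialOrder P]

theorem noList_iff : NoList (nbr : P → Set P) ↔ ¬ HasBranchlessList P := by
  constructor
  · rintro h ⟨κ, h1, h2, e, p, S, hS, hW⟩
    obtain ⟨W, h3⟩ := h κ h1 h2 e p S hS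
    exact hW W h3
  · intro h κ h1 h2 e p S hS
    by_contra h3
    exact h ⟨κ, h1, h2, e, p, S, hS, fun W hW => h3 ⟨W, hW⟩⟩

theorem cover_iff_no_obstruction :
    Cover (nbr : P → Set P) ↔ ¬ HasHalfCrown P ∧ ¬ HasBranchlessList P :=
  ⟨fun h => ⟨no_crown_of_base (small_base h.press), noList_iff.1 h.noList⟩,
    fun h => cover_of_no_obstruction (fun _ _ h => Or.symm h)
      (fun p h => lt_irrefl p (Or.elim h id id)) h.1 (noList_iff.2 h.2)⟩

theorem cover_iff_order (hP : ∀ a b c : P, ¬ (a < b ∧ b < c)) :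
    Cover (nbr : P → Set P) ↔ ∃ 𝓕 : Set (Set P × Set P),
      (∀ C ∈ 𝓕, ∀ x ∈ C.1, ∀ y ∈ C.2, x < y) ∧
      (∀ x y : P, x < y → ∃ C ∈ 𝓕, x ∈ C.1 ∧ y ∈ C.2) ∧
      ∀ x : P, {C ∈ 𝓕 | x ∈ C.1 ∨ x ∈ C.2}.Finite := by
  constructor
  · rintro ⟨𝓕, h1, h2, h3⟩
    let cut : Set P × Set P → Set P × Set P := fun C => (C.1 ∩ {x | ∃ z, x < z}, C.2)
    refine ⟨cut '' 𝓕, ?_, fun x y hxy => ?_, fun x => ((h3 x).image cut).subset ?_⟩
    · rintro _ ⟨C, hC, rfl⟩ x ⟨hx, z, hz⟩ y hy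
      rcases h1 C hC x hx y hy with h | h
      · exact (hP y x z ⟨h, hz⟩).elim
      · exact h
    · obtain ⟨C, hC, hx, hy⟩ := h2 x y (Or.inr hxy)
      exact ⟨cut C, mem_image_of_mem _ hC, ⟨hx, y, hxy⟩, hy⟩
    · rintro _ ⟨⟨C, hC, rfl⟩, hx⟩
      exact ⟨C, ⟨hC, hx.imp_left fun h => h.1⟩, rfl⟩
  · rintro ⟨𝓕, h1, h2, h3⟩
    refine ⟨𝓕 ∪ Prod.swap '' 𝓕, ?_, fun x y hxy => ?_,
      fun x => ((h3 x).union ((h3 x).image Prod.swap)).subset ?_⟩
    · rintro _ (hC | ⟨C, hC, rfl⟩) x hx y hy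
      · exact Or.inr (h1 _ hC x hx y hy)
      · exact Or.inl (h1 C hC y hy x hx)
    · rcases hxy with h | h
      · obtain ⟨C, hC, hy, hx⟩ := h2 y x h
        exact ⟨C.swap, Or.inr (mem_image_of_mem _ hC), hx, hy⟩
      · obtain ⟨C, hC, hx, hy⟩ := h2 x y h
        exact ⟨C, Or.inl hC, hx, hy⟩
    · rintro _ ⟨hC | ⟨C, hC, rfl⟩, hx⟩
      · exact Or.inl ⟨hC, hx⟩
      · exact Or.inr ⟨C, ⟨hC, hx.symm⟩, rfl⟩

/-- Each obstruction lives in a subposet of regular size. -/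
theorem obstruction_small (h1 : ℵ₀ < #P) (h2 : ¬ (#P).IsRegular)
    (h : HasHalfCrown P ∨ HasBranchlessList P) :
    ∃ Q : Set P, #Q < #P ∧ (HasHalfCrown Q ∨ HasBranchlessList Q) := by
  rcases h with ⟨a, b, h3, h4⟩ | ⟨κ, h3, h4, e, p, S, hS, hW⟩
  · refine ⟨range a ∪ range b, ?_, Or.inl ⟨fun i => ⟨a i, Or.inl ⟨i, rfl⟩⟩,
      fun i => ⟨b i, Or.inr ⟨i, rfl⟩⟩, h3, h4⟩⟩
    have h5 : ∀ c : (Ordinal.omega.{0} 1).ToType → P, #(range c) ≤ ℵ₁ := fun c => by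
      simpa using mk_range_le_lift (f := c)
    refine ((mk_union_le _ _).trans (add_le_of_le aleph0_lt_aleph_one.le (h5 a) (h5 b))).trans_lt
      (lt_of_le_of_ne ?_ fun h6 => h2 (h6 ▸ isRegular_aleph_one))
    rw [← succ_aleph0]
    exact Order.succ_le_of_lt h1
  · refine ⟨range e ∪ range p, ?_, Or.inr ⟨κ, h3, h4, fun i => ⟨e i, Or.inl ⟨i, rfl⟩⟩,
      fun i => ⟨p i, Or.inr ⟨i, rfl⟩⟩, S, hS, hW⟩⟩
    have h5 : ∀ c : κ.ord.ToType → P, #(range c) ≤ κ := fun c =>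
      mk_range_le.trans (mk_ord_toType κ).le
    refine ((mk_union_le _ _).trans (add_le_of_le h3.1 (h5 e) (h5 p))).trans_lt
      (lt_of_le_of_ne ?_ fun h6 => h2 (h6 ▸ h3))
    by_contra h6
    obtain ⟨t, ht⟩ := press_idx h3 h4 hS (fun _ => (univ : Set P))
      (fun _ => by simpa using h6) p fun δ _ => ⟨∅, by simp, mem_univ _⟩
    refine hW {ξ | e ξ ∈ nbr t} (ht.mono ?_)
    rintro δ ⟨hδ, rfl⟩
    exact ⟨hδ, fun _ _ => Iff.rfl⟩

end Pool.Agent.Lib.MP_71509e_al.OB
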